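import Pool.Agent.Y192.KC.StrAll

/-!
MP_fa3f7f_ag, Q1: the birational structure of the covers `w j ^ e j = F j (t 0 ^ m, …, t n ^ m)` of
arbitrary projective varieties, `m` large.

`ProdGT L p k`: the varieties with function field `L` are birational to `Y × P^k`, where `Y` is a
point, if `p = 0`, and a variety of general type of dimension `p`, if `p > 0`.
`Psef ℂ L d (fun _ => False)`: the canonical bundle is pseudo-effective.
-/

set_option autoImplicit false

namespace Pool.Agent.Results.MP_fa3f7f_ag.KummerModels

open Pool.Agent.W602.GT Pool.Agent.Y192.KC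

/-- Let `Z` be any irreducible projective variety in `P^n`, not in a coordinate hyperplane, with the
homogeneous prime ideal `I`, let `F 1, …, F r` be forms which do not vanish on `Z`, and let
`e 1, …, e r` be positive numbers (there is no condition on the singularities of `Z` and of the
divisors `F j = 0`). There are numbers `m0` and `p` with the following property. Let `m ≥ m0` be
divisible by the `e j`, and let `X` be any irreducible component, of dimension `d > 0`, of the
projective variety with the equations `f (t 0 ^ m, …, t n ^ m) = 0`, `f ∈ I`, and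
`w j ^ e j = F j (t 0 ^ m, …, t n ^ m)` in the weighted projective space with the homogeneous
coordinates `t i` and `w j`; `L` is the function field of `X`, and `t`, `w` are the coordinates of its
generic point. Then `X` is birational to `Y × P^k`, where `p + k = d`, and `Y` is a point (if
`p = 0`) or a variety of general type of dimension `p` (if `p > 0`).

So if `Y'` is a minimal model of `Y`, which exists by Birkar, Cascini, Hacon and McKernan, then
`Y' × P^k` is a minimal model of `X`, if `k = 0`, and it is a Mori fibre space over `Y'` if `k > 0`.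

Moreover, the following are equivalent: `k = 0`; `X` is of general type; the canonical bundle of `X`
is pseudo-effective; `X` is not ruled; there is no one-parameter group of diagonal matrices which acts
nontrivially on `P^n` and preserves `Z` and the essential parts of the branch divisors `F j = 0` on
`Z`. -/
theorem result {n r : ℕ} (X : ZCov n r) (hG : X.G = 1) :
    ∃ m0 p : ℕ, ∀ m, m0 ≤ m → (∀ j, X.e j ∣ m) →
      ∀ (L : Type) [Field L] [Algebra ℂ L] (t : Fin (n + 1) → L) (w : Fin r → L),
      ZField X m L t w → ∀ d : ℕ, 1 ≤ d → Algebra.trdeg ℂ L = d →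
      ∃ k : ℕ, d = p + k ∧ ProdGT L p k ∧
        [k = 0, GeneralType ℂ L d, Psef ℂ L d (fun _ => False), ¬ Ruled ℂ L, ¬ ZRed X].TFAE := by
  obtain ⟨m0, p, h0⟩ := struct_all X hG
  refine ⟨m0, p, fun m hm he L _ _ t w hF d hd htr => ?_⟩
  obtain ⟨ht, k, hk, hP, h1⟩ := h0 m hm he L t w hF d hd htr
  have h2 : ¬ GeneralType ℂ L d ↔ ZRed X := ht.out 3 7
  have h3 : ¬ Psef ℂ L d (fun _ => False) ↔ ZRed X := ht.out 1 7
  have h4 : Ruled ℂ L ↔ ZRed X := ht.out 2 7
  refine ⟨k, hk, hP, ?_⟩
  tfae_have 1 ↔ 5 := h1
  tfae_have 2 ↔ 5 := not_iff_comm.mp h2 |>.symm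
  tfae_have 3 ↔ 5 := not_iff_comm.mp h3 |>.symm
  tfae_have 4 ↔ 5 := not_congr h4
  tfae_finish

end Pool.Agent.Results.MP_fa3f7f_ag.KummerModels
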