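import Pool.Agent.Y190.SN.Lang

/-!
MP_fa3f7f_ag, Q1: the canonical bundles of the varieties `Y` with a rational map to the variety
`X_{n,m}(a)` of the vectors whose `m`-th powers are the values of a polynomial of degree at most
`n` at given constants, and the dichotomy (general type, or not pseudo-effective) for its closed
subvarieties.

The function fields are over an algebraically closed field `k` of characteristic zero. `coords k y`
is the field generated by the ratios of the homogeneous coordinates `y`. `GeneralType k K w`: the
varieties with function field `K` have dimension `w` and are of general type (there are pluriforms,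
regular at all prime divisors, whose ratios contain `w` algebraically independent functions).
`Psef k K w (fun _ => False)`: their canonical bundle is pseudo-effective. `Ruled k K`: they are
birational to the product of a variety and the projective line.
-/

set_option autoImplicit false

namespace Pool.Agent.Results.MP_fa3f7f_ag.PolynomialValueFibrations

open Pool.Agent.W602.GT

/-- Let `m ≥ 2` and `4 n + (n + 1) ^ 2 < 2 (N + 1)`. Let `Y` be a variety of dimension `d` with
function field `K`, and `φ = (y 0 : ... : y N)` a rational map from `Y` to `X_{n,m}(a)`. There are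
a variety of general type with function field `B` and with `dim B ≤ d`, a rational map with
irreducible general fibre `Y → B` (that is, `B` is algebraically closed in `K`), a monic polynomial
`q` over `K` of degree `r ≤ n / m`, and `z i` in `B`, such that `φ = (q (a i) z i)_i`: on the fibres
of `Y → B`, `φ` is a map to an `r`-dimensional linear space.

If `φ` is birational onto its image (for instance, if `Y` is a closed subvariety of `X_{n,m}(a)`),
then `K` is generated by the `r` coefficients of `q` over `B`, so that `dim B ≤ d ≤ dim B + r`;
if `d = dim B`, then the canonical bundle of `Y` is pseudo-effective and big (`Y` is of general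
type), and if `d = dim B + r`, `r > 0`, then it is not pseudo-effective and `Y` is ruled. One of
these two cases holds whenever `r ≤ 1`, in particular whenever `n < 2 m`. -/
theorem result {k : Type} [Field k] [IsAlgClosed k] [CharZero k] {N n m : ℕ} (hm : 2 ≤ m)
    (hN : 4 * n + (n + 1) ^ 2 < 2 * (N + 1)) (a : Fin (N + 1) → k) (ha : Function.Injective a)
    {K : Type} [Field K] [Algebra k K] {d : ℕ} (htr : Algebra.trdeg k K = d)
    (y : Fin (N + 1) → K) (hy : y ≠ 0) (H : Polynomial K) (hH : H.natDegree ≤ n)
    (hyH : ∀ i, y i ^ m = H.eval (algebraMap k K (a i))) :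
    ∃ (B : IntermediateField k K) (b : ℕ) (q : Polynomial K) (c : K) (z : Fin (N + 1) → B),
      (∀ u : K, IsAlgebraic B u → u ∈ B) ∧ GeneralType k B b ∧ b ≤ d ∧
      q.Monic ∧ q.natDegree * m ≤ n ∧ c ≠ 0 ∧
      (∀ i, y i = c * q.eval (algebraMap k K (a i)) * (z i : K)) ∧
      (coords k y = ⊤ →
        IntermediateField.adjoin B (Set.range fun j : Fin q.natDegree => q.coeff j) = ⊤ ∧
        d ≤ b + q.natDegree ∧
        (d = b → Psef k K d (fun _ => False) ∧ GeneralType k K d) ∧
        (d = b + q.natDegree → 0 < q.natDegree →
          ¬ Psef k K d (fun _ => False) ∧ Ruled k K) ∧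
        (n < 2 * m → d = b ∨ (0 < q.natDegree ∧ d = b + q.natDegree))) := by
  obtain ⟨B, b, q, G, c, z, hbd, hcl, hgt, hq, hdeg, hc, hyz, -, -, htop⟩ :=
    Pool.Agent.Y190.SN.fibration htr hm hN a ha y hy H hH hyH
  refine ⟨B, b, q, c, z, hcl, hgt, hbd, hq, by omega, hc, hyz, fun hco => ?_⟩
  have hgen := Pool.Agent.Y190.SN.gen_top hq hc hco hyz
  obtain ⟨h1, h2, h3⟩ := Pool.Agent.Y190.SN.dims hgt.1 htr hgen
  refine ⟨hgen, h1, fun h => ?_, fun h hr => ?_, fun hnm => ?_⟩
  · have h4 := h3 h
    have h5 := htop fun u => hcl u (h4.isAlgebraic u)
    exact ⟨psef_of_kodGe (kod_of_general h5), h5⟩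
  · obtain ⟨C, σ, h5, h6⟩ := Pool.Agent.Y190.SN.ruled_of_indep hr hgen (h2 h)
    exact ⟨not_psef_of htr C h5 h6, C, σ, h5, h6⟩
  · have h4 : q.natDegree ≤ 1 := by
      by_contra hcon
      have h5 : 2 * m ≤ q.natDegree * m := Nat.mul_le_mul_right m (by omega)
      omega
    omega

end Pool.Agent.Results.MP_fa3f7f_ag.PolynomialValueFibrations
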