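import Pool.Agent.Y174.B7

/-!
MP_fa3f7f_ag, Q1: good minimal models of varieties whose cotangent bundle is generically generated by
regular multivalued 1-forms modulo a subsheaf of rank `d` with an effective determinant.
-/

set_option autoImplicit false

universe u

open FF Pool.Agent.W619.PQ Pool.Agent.W619.TW Pool.Agent.W619.Y Pool.Agent.Y174

namespace Pool.Agent.Results.MP_fa3f7f_ag.RelativeMultivaluedForms

/-- Let `V` be a projective variety of dimension `n = d + r` with function field `K`. Let
`α 0, ..., α (d - 1)` be rational 1-forms on `V` which are linearly independent over `K`, and `a ≠ 0`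
a rational function such that the tensor `a (α 0 ∧ ... ∧ α (d - 1)) ^ m` is a regular section of
`(Ω ^ d) ^ ⊗ m`, `m ≥ 1` (for instance the pull-back of a pluricanonical form of the base `Y` of a
fibration of `V`, with `dim Y = d` and `κ (Y) ≥ 0`). Let `ω i` be finitely many regular multivalued
1-forms on `V` such that no rational vector field `D ≠ 0` is annihilated by all `α l` and all
`ω i`. Then there is a finite Galois cover `Z` of `V`, with function field `L`, with `r` regular
1-forms `η i` which are linearly independent together with the pull-backs `α' l` of the `α l`, such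
that `κ (V) = κ (Z) ≥ 0` and `ν (V) ≤ ν (Z)`. In particular the fibres of the Albanese map of `Z`
have dimension at most `d`; if `d ≤ 3`, then `Z` has a good minimal model, and therefore
`κ (V) = ν (V)` and `V` has a good minimal model. -/
theorem result {K : Type u} [Field K] [Algebra ℂ K] [Algebra.EssFiniteType ℂ K] {d r : ℕ}
    (hn : Algebra.trdeg ℂ K = (d + r : ℕ)) {m : ℕ} (hm : 1 ≤ m)
    (α : Fin d → (Derivation ℂ K K →ₗ[K] K)) (hα : LinearIndependent K α) (a : K) (ha : a ≠ 0)
    (hreg : ∀ v : Place ℂ K, IsDivisorial v (d + r) → ∀ D : Fin d → Derivation ℂ K K,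
      (∀ j f, v.Reg f → v.Reg (D j f)) → v.Reg (a * (Matrix.of fun i j => α i (D j)).det ^ m))
    {N : ℕ} (ω : Fin N → Derivation ℂ K K →ₗ[K] AlgebraicClosure K)
    (hω : ∀ i, MultiReg (d + r) (ω i))
    (hD : ∀ D : Derivation ℂ K K, (∀ l, α l D = 0) → (∀ i, ω i D = 0) → D = 0) :
    ∃ L : IntermediateField K (AlgebraicClosure K), FiniteDimensional K L ∧ IsGalois K L ∧
      (∃ (α' : Fin d → (Derivation ℂ L L →ₗ[L] L)) (η : Fin r → (Derivation ℂ L L →ₗ[L] L)),
        (∀ l, IsPullForm (α l) (α' l)) ∧ LinearIndependent L (Fin.append α' η) ∧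
        ∀ i, ∀ w : Place ℂ L, IsDivisorial w (d + r) → ∀ D : Derivation ℂ L L,
          (∀ f, w.Reg f → w.Reg (D f)) → w.Reg (η i D)) ∧
      KodTr ℂ K (d + r) 0 ∧ (∀ h, KodTr ℂ K (d + r) h ↔ KodTr ℂ L (d + r) h) ∧
      ∀ h, NumLe ℂ L (d + r) (fun _ => False) h → NumLe ℂ K (d + r) (fun _ => False) h :=
  main_A0 ‹Algebra.EssFiniteType ℂ K› hn hm α hα a ha hreg ω hω hD

end Pool.Agent.Results.MP_fa3f7f_ag.RelativeMultivaluedForms
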