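import Pool.Agent.Y174.T8

/-!
MP_fa3f7f_ag, Q1: good minimal models of varieties for which some symmetric power of the cotangent
bundle is generically generated by its global sections.
-/

set_option autoImplicit false

universe u

open Pool.Agent.W619.TW Pool.Agent.W619.Y Pool.Agent.Y174

namespace Pool.Agent.Results.MP_fa3f7f_ag.SymmetricDifferentials

/-- Let `V` be a projective variety of dimension `n` with function field `K` and `κ (V) ≤ 0` such that
the `m`-th symmetric power of its cotangent bundle is generically generated by its global sections,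
`m ≥ 1`. Then there is a cyclic cover `Z` of `V`, with function field `K (t)`, `t ^ m ∈ K`, which is
of maximal Albanese dimension, and `κ (V) = κ (Z) = 0`, `ν (V) ≤ ν (Z)`. Such a variety `Z` is
birational to an abelian variety, so `ν (V) = 0` and `V` has a good minimal model. -/
theorem result {K : Type u} [Field K] [Algebra ℂ K] [Algebra.EssFiniteType ℂ K] {n m : ℕ}
    (hn : Algebra.trdeg ℂ K = n) (hm : 1 ≤ m) (hκ : ¬ KodTr ℂ K n 1) (hgen : GenGen ℂ K n m) :
    ∃ t : AlgebraicClosure K, t ≠ 0 ∧ (∃ f : K, algebraMap K (AlgebraicClosure K) f = t ^ m) ∧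
      MaxAlb ℂ (IntermediateField.adjoin K {t}) n ∧ KodTr ℂ K n 0 ∧
      (∀ a, KodTr ℂ K n a ↔ KodTr ℂ (IntermediateField.adjoin K {t}) n a) ∧
      ∀ a, NumLe ℂ (IntermediateField.adjoin K {t}) n (fun _ => False) a →
        NumLe ℂ K n (fun _ => False) a :=
  main3 ‹Algebra.EssFiniteType ℂ K› hn hm hκ hgen

end Pool.Agent.Results.MP_fa3f7f_ag.SymmetricDifferentials
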